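import Pool.Agent.N343.TC.Stm

/-! Project TC (helper343), GRAD: gradients of the real and imaginary part. -/

set_option autoImplicit false

open MeasureTheory Set Filter Topology Metric Complex
open scoped ContDiff RealInnerProductSpace ComplexConjugate

namespace Pool.Agent.N558.TC.GRAD

open Pool.Agent.N343.TC

theorem main : S_GRAD := by
  intro P z κ hP
  have h1 := hP.hasDerivAt.hasFDerivAt.restrictScalars ℝ
  have hre := Complex.reCLM.hasFDerivAt.comp z h1
  have him := Complex.imCLM.hasFDerivAt.comp z h1
  have hn := (hasStrictFDerivAt_norm_sq z).hasFDerivAt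
  constructor
  · rw [hasGradientAt_iff_hasFDerivAt]
    refine ((hn.const_mul (-κ)).add hre).congr_fderiv ?_
    refine ContinuousLinearMap.ext fun v => ?_
    simp [InnerProductSpace.toDual_apply_apply, Complex.inner]
    ring
  · rw [hasGradientAt_iff_hasFDerivAt]
    refine him.congr_fderiv ?_
    refine ContinuousLinearMap.ext fun v => ?_
    simp [InnerProductSpace.toDual_apply_apply, Complex.inner]
    ring

end Pool.Agent.N558.TC.GRAD
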